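import Pool.Agent.N637.SLX.Stm2

/-!
# Project SLX (helper637), part DEN: the natural density of the criterion in the family

`t_DEN : S_DEN`, adapted from `Pool.Agent.N916.AM.Fd` with the modulus `8 * 21`.
-/

set_option autoImplicit false
set_option linter.all false

open scoped Classical

namespace Pool.Agent.N756.SLX

open Finset Filter Topology
open Pool.Agent.N637.SLX
open Pool.Agent.N916.AM (LAH Ks mem_Ks cls_iff dq low ratio)
open Pool.Agent.N916.TE (FD count_split)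

theorem tprod_mem (f : ℕ → ℝ) (h0 : ∀ l, 0 ≤ f l) (h1 : ∀ l, f l ≤ 1) :
    0 ≤ ∏' l, f l ∧ ∏' l, f l ≤ 1 := by
  by_cases hf : Multipliable f
  · have h := hf.hasProd
    have b0 : ∀ s : Finset ℕ, 0 ≤ ∏ l ∈ s, f l := fun s => prod_nonneg fun l _ => h0 l
    have b1 : ∀ s : Finset ℕ, ∏ l ∈ s, f l ≤ 1 :=
      fun s => prod_le_one (fun l _ => h0 l) fun l _ => h1 l
    exact ⟨ge_of_tendsto' h b0, le_of_tendsto' h b1⟩
  · rw [tprod_eq_one_of_not_multipliable hf]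
    exact ⟨zero_le_one, le_rfl⟩

theorem alt_le (r j : ℕ) : alt r j ≤ 2 ^ (r * (r - 1) / 2) := by
  have e1 : Fintype.card ((b : Fin r) → (Fin b.1 → ZMod 2)) = 2 ^ (r * (r - 1) / 2) := by
    rw [Fintype.card_pi]
    have h : ∀ b : Fin r, Fintype.card (Fin b.1 → ZMod 2) = 2 ^ b.1 := by
      intro b
      rw [Fintype.card_fun, ZMod.card, Fintype.card_fin]
    rw [Finset.prod_congr rfl fun b _ => h b, Finset.prod_pow_eq_pow_sum,
      Fin.sum_univ_eq_sum_range (fun i => i) r, Finset.sum_range_id]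
  rw [← e1, ← Finset.card_univ]
  unfold alt
  refine Finset.card_le_card_of_injOn
    (fun M => fun (b : Fin r) (i : Fin b.1) => M ⟨i.1, i.2.trans b.2⟩ b) (fun _ _ => by simp) ?_
  intro M hM M' hM' h
  have a1 := (mem_filter.1 (mem_coe.1 hM)).2.1
  have a2 := (mem_filter.1 (mem_coe.1 hM')).2.1
  have key : ∀ a b : Fin r, a < b → M a b = M' a b := by
    intro a b hab
    have := congrFun (congrFun h b) ⟨a.1, hab⟩
    exact this
  funext a b
  rcases lt_trichotomy a b with hab | hab | hab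
  · exact key a b hab
  · subst hab
    rw [a1.1, a2.1]
  · rw [a1.2 a b, a2.2 a b]
    exact key b a hab

theorem gl_pos (r : ℕ) : 1 ≤ gl r := by
  unfold gl
  have h : 0 < ∏ i ∈ range r, (2 ^ r - 2 ^ i) := by
    refine Finset.prod_pos fun i hi => ?_
    have : 2 ^ i < 2 ^ r := Nat.pow_lt_pow_right (by norm_num) (mem_range.1 hi)
    omega
  exact h

theorem law_mem (r j : ℕ) : 0 ≤ law r j ∧ law r j ≤ 1 := by
  have ht := tprod_mem (fun l : ℕ => 1 - (1 / 2 : ℝ) ^ (r + 1 + l))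
    (fun l => by
      have : (1 / 2 : ℝ) ^ (r + 1 + l) ≤ 1 := pow_le_one₀ (by norm_num) (by norm_num)
      linarith)
    (fun l => by
      have : (0 : ℝ) ≤ (1 / 2 : ℝ) ^ (r + 1 + l) := by positivity
      linarith)
  have h1 : (0 : ℝ) ≤ (alt r j : ℝ) / 2 ^ (r * (r - 1) / 2) := by positivity
  have h2 : (alt r j : ℝ) / 2 ^ (r * (r - 1) / 2) ≤ 1 := by
    rw [div_le_one (by positivity)]
    exact_mod_cast alt_le r j
  have hg : (1 : ℝ) ≤ (gl r : ℝ) := by exact_mod_cast gl_pos r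
  have h3 : (0 : ℝ) ≤ (alt r j : ℝ) / 2 ^ (r * (r - 1) / 2) / (gl r : ℝ) := by positivity
  have h4 : (alt r j : ℝ) / 2 ^ (r * (r - 1) / 2) / (gl r : ℝ) ≤ 1 := by
    rw [div_le_one (by positivity)]
    exact h2.trans hg
  unfold law
  exact ⟨mul_nonneg h3 ht.1, mul_le_one₀ h4 ht.1 ht.2⟩


/-- the residues modulo `21` of the family -/
noncomputable def R21 : Finset ℕ := (range 21).filter fun x =>
  x % 3 ≠ 2 ∧ (x % 7 = 0 ∨ x % 7 = 3 ∨ x % 7 = 5 ∨ x % 7 = 6)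

theorem mem_R21 (n : ℕ) : n % 21 ∈ R21 ↔
    n % 3 ≠ 2 ∧ (n % 7 = 0 ∨ n % 7 = 3 ∨ n % 7 = 5 ∨ n % 7 = 6) := by
  unfold R21
  rw [mem_filter, mem_range]
  have h1 : n % 21 % 3 = n % 3 := Nat.mod_mod_of_dvd n (by norm_num)
  have h2 : n % 21 % 7 = n % 7 := Nat.mod_mod_of_dvd n (by norm_num)
  rw [h1, h2]
  constructor
  · exact fun h => h.2
  · exact fun h => ⟨Nat.mod_lt _ (by norm_num), h⟩

theorem fam_iff (n : ℕ) : Fam0 n ↔ FD n ∧ n % 21 ∈ R21 := by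
  rw [mem_R21]
  exact Iff.rfl

theorem fcls_iff (n : ℕ) : Fam0 n ↔
    (Squarefree n ∧ n % (8 * 21) ∈ Ks 21 3 1 R21) ∨
    (∃ M, n = 4 * M ∧ (Squarefree M ∧ M % (8 * 21) ∈ Ks 21 1 4 R21)) ∨
    (∃ M, n = 8 * M ∧ (Squarefree M ∧ M % (8 * 21) ∈ Ks 21 1 8 R21)) ∨
    (∃ M, n = 8 * M ∧ (Squarefree M ∧ M % (8 * 21) ∈ Ks 21 3 8 R21)) := by
  rw [fam_iff, cls_iff (by norm_num) R21]

theorem k4 {c k M : ℕ} (h : M % (8 * 21) ∈ Ks 21 c k R21) : M % 4 = c :=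
  ((mem_Ks (by norm_num) M).1 h).1

theorem gfam_iff (a b n : ℕ) : (Fam0 n ∧ Gn a b n) ↔
    (Squarefree n ∧ n % (8 * 21) ∈ Ks 21 3 1 R21 ∧ GjS false 0 0 a b n.primeFactors) ∨
    (∃ M, n = 4 * M ∧ (Squarefree M ∧ M % (8 * 21) ∈ Ks 21 1 4 R21 ∧
      GjS true 0 1 a b M.primeFactors)) ∨
    (∃ M, n = 8 * M ∧ (Squarefree M ∧ M % (8 * 21) ∈ Ks 21 1 8 R21 ∧
      GjS true 1 1 a b M.primeFactors)) ∨
    (∃ M, n = 8 * M ∧ (Squarefree M ∧ M % (8 * 21) ∈ Ks 21 3 8 R21 ∧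
      GjS true 1 0 a b M.primeFactors)) := by
  rw [fcls_iff]
  constructor
  · rintro ⟨⟨h1, h2⟩ | ⟨M, rfl, h1, h2⟩ | ⟨M, rfl, h1, h2⟩ | ⟨M, rfl, h1, h2⟩, g0, g1, g2, g3⟩
    · have := k4 h2
      exact Or.inl ⟨h1, h2, g0 (by omega)⟩
    · exact Or.inr (Or.inl ⟨M, rfl, h1, h2, g1 M rfl (k4 h2)⟩)
    · exact Or.inr (Or.inr (Or.inl ⟨M, rfl, h1, h2, g2 M rfl (k4 h2)⟩))
    · exact Or.inr (Or.inr (Or.inr ⟨M, rfl, h1, h2, g3 M rfl (k4 h2)⟩))
  · rintro (⟨h1, h2, h3⟩ | ⟨M, rfl, h1, h2, h3⟩ | ⟨M, rfl, h1, h2, h3⟩ | ⟨M, rfl, h1, h2, h3⟩)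
    · have := k4 h2
      exact ⟨Or.inl ⟨h1, h2⟩, fun _ => h3, fun M' hM _ => by omega, fun M' hM _ => by omega,
        fun M' hM _ => by omega⟩
    · have := k4 h2
      refine ⟨Or.inr (Or.inl ⟨M, rfl, h1, h2⟩), fun h => by omega, fun M' hM _ => ?_,
        fun M' hM _ => by omega, fun M' hM _ => by omega⟩
      obtain rfl : M = M' := by omega
      exact h3
    · have := k4 h2
      refine ⟨Or.inr (Or.inr (Or.inl ⟨M, rfl, h1, h2⟩)), fun h => by omega,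
        fun M' hM _ => by omega, fun M' hM _ => ?_, fun M' hM _ => by omega⟩
      obtain rfl : M = M' := by omega
      exact h3
    · have := k4 h2
      refine ⟨Or.inr (Or.inr (Or.inr ⟨M, rfl, h1, h2⟩)), fun h => by omega,
        fun M' hM _ => by omega, fun M' hM _ => by omega, fun M' hM _ => ?_⟩
      obtain rfl : M = M' := by omega
      exact h3

/-- the count in a class -/
theorem dqF (hJ : S_LAJ) (hR : S_RED) (a b : ℕ) {t : Bool} {r s : ZMod 2} {c k : ℕ}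
    (hts : t = false → s = 0) (htr : t = true → r ≠ 0 ∨ s ≠ 0) (hc : c = if s = 0 then 3 else 1)
    (hk : k = 1 ∨ k = 4 ∨ k = 8) :
    ∀ ε : ℝ, 0 < ε → ∃ X₀ : ℕ, ∀ X : ℕ, X₀ ≤ X →
      |(((Icc 1 X).filter fun n => Squarefree n ∧ n % (8 * 21) ∈ Ks 21 c k R21 ∧
        GjS t r s a b n.primeFactors).card : ℝ) - law a b * (((Icc 1 X).filter fun n =>
          Squarefree n ∧ n % (8 * 21) ∈ Ks 21 c k R21).card : ℝ)| ≤ ε * X := by
  have h4 : ∀ x ∈ Ks 21 c k R21, x % 4 = if s = 0 then 3 else 1 := by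
    intro x hx
    unfold Pool.Agent.N916.AM.Ks at hx
    rw [← hc]
    exact (mem_filter.1 hx).2.1
  have h7 : ∀ x ∈ Ks 21 c k R21, x % 7 = 0 ∨ x % 7 = 3 ∨ x % 7 = 5 ∨ x % 7 = 6 := by
    intro x hx
    unfold Pool.Agent.N916.AM.Ks at hx
    have h := ((mem_R21 _).1 (mem_filter.1 hx).2.2).2
    rcases hk with rfl | rfl | rfl <;> omega
  refine dq (Dvd.intro _ rfl) (by norm_num) (law_mem a b).1 (law_mem a b).2
    (hR hJ (8 * 21) (Dvd.intro _ rfl) (by norm_num) (by norm_num) t r s _ hts htr h4 h7 a b)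
    fun x hx => ?_
  have := h4 x hx
  split_ifs at this <;> omega

theorem count_fam (hJ : S_LAJ) (hR : S_RED) (a b : ℕ) : ∀ ε : ℝ, 0 < ε → ∃ X₀ : ℕ, ∀ X : ℕ,
    X₀ ≤ X → |(((Icc 1 X).filter fun n => Fam0 n ∧ Gn a b n).card : ℝ) -
      law a b * (((Icc 1 X).filter fun n => Fam0 n).card : ℝ)| ≤ ε * X := by
  intro ε hε
  obtain ⟨X0, h0⟩ := dqF hJ hR a b (t := false) (r := 0) (s := 0) (c := 3) (k := 1)
    (fun _ => rfl) (fun h => absurd h (by decide)) (by rw [if_pos rfl]) (by norm_num)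
    (ε / 8) (by positivity)
  obtain ⟨X1, h1⟩ := dqF hJ hR a b (t := true) (r := 0) (s := 1) (c := 1) (k := 4)
    (fun h => absurd h (by decide)) (fun _ => Or.inr (by decide)) (by rw [if_neg (by decide)])
    (by norm_num) (ε / 8) (by positivity)
  obtain ⟨X2, h2⟩ := dqF hJ hR a b (t := true) (r := 1) (s := 1) (c := 1) (k := 8)
    (fun h => absurd h (by decide)) (fun _ => Or.inr (by decide)) (by rw [if_neg (by decide)])
    (by norm_num) (ε / 8) (by positivity)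
  obtain ⟨X3, h3⟩ := dqF hJ hR a b (t := true) (r := 1) (s := 0) (c := 3) (k := 8)
    (fun h => absurd h (by decide)) (fun _ => Or.inl (by decide)) (by rw [if_pos rfl])
    (by norm_num) (ε / 8) (by positivity)
  refine ⟨8 * (X0 + X1 + X2 + X3), fun X hX => ?_⟩
  have b0 := h0 X (by omega)
  have b1 := h1 (X / 4) (by omega)
  have b2 := h2 (X / 8) (by omega)
  have b3 := h3 (X / 8) (by omega)
  have c1 := count_split X _ _ _ _ _ (gfam_iff a b) (fun n h => by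
      have := k4 h.2.1; omega) (fun n h => k4 h.2.1) (fun n h => k4 h.2.1) (fun n h => k4 h.2.1)
  have c2 := count_split X _ _ _ _ _ fcls_iff (fun n h => by
      have := k4 h.2; omega) (fun n h => k4 h.2) (fun n h => k4 h.2) (fun n h => k4 h.2)
  have c1' := congrArg (Nat.cast : ℕ → ℝ) c1
  have c2' := congrArg (Nat.cast : ℕ → ℝ) c2
  push_cast at c1' c2'
  have d4 : (((X / 4 : ℕ) : ℝ)) ≤ X / 4 := by
    have := @Nat.cast_div_le ℝ _ _ _ X 4
    simpa using this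
  have d8 : (((X / 8 : ℕ) : ℝ)) ≤ X / 8 := by
    have := @Nat.cast_div_le ℝ _ _ _ X 8
    simpa using this
  rw [abs_le] at b0 b1 b2 b3
  have q1 : ε / 8 * ((X / 4 : ℕ) : ℝ) ≤ ε / 8 * (X / 4) :=
    mul_le_mul_of_nonneg_left d4 (by positivity)
  have q2 : ε / 8 * ((X / 8 : ℕ) : ℝ) ≤ ε / 8 * (X / 8) :=
    mul_le_mul_of_nonneg_left d8 (by positivity)
  have hX' : 0 ≤ ε / 8 * X := by positivity
  rw [abs_le, c1', c2']
  constructor
  · linarith [b0.1, b1.1, b2.1, b3.1]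
  · linarith [b0.2, b1.2, b2.2, b3.2]

/-- **SLX-DEN** -/
theorem t_DEN : S_DEN := by
  intro hJ hR a b
  have hsq : Squarefree 7 := (by norm_num : Nat.Prime 7).prime.squarefree
  obtain ⟨c₁, X₁, hc₁, hlow⟩ := low (M := 8 * 21) (by norm_num) ⟨4 * 21, by norm_num⟩ hsq
  refine ratio hc₁ (fun X hX => (hlow X hX).trans ?_) (count_fam hJ hR a b)
  refine Nat.cast_le.2 (card_le_card fun n hn' => ?_)
  rw [mem_filter] at hn' ⊢
  have h := hn'.2.2
  refine ⟨hn'.1, Or.inl ⟨hn'.2.1, by omega⟩, by omega, by omega⟩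

end Pool.Agent.N756.SLX
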